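import Pool.Agent.W429.TCI.Defs
set_option autoImplicit false

/-! Statements of the parts (proofs elsewhere). -/

namespace Pool.Agent.W429.TCI
open Pool.Agent.Helper805.Nuc.Tens Pool.Agent.Helper805.Nuc.Free Pool.Agent.Helper805.Nuc.NFun
  Pool.Agent.Helper805.Nuc.Alt

/-- TCI-L1 -/
def S_L1 : Prop := ∀ (Φ : Type) [CommRing Φ] (A : Type) [NonUnitalNonAssocRing A] [Module Φ A]
    [IsScalarTower Φ A A] [SMulCommClass Φ A A], IsAlt A → (∀ b : A, b + b = 0 → b = 0) →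
  pr Φ (pr Φ (ZN Φ A) (Dideal Φ A)) (Dideal Φ A) = ⊥

/-- TCI-L2: the passage to the quotient by `ZN` -/
def S_L2 : Prop := ∀ (F : Type) [Field F] (A : Type) [NonUnitalNonAssocRing A] [Module F A]
    [IsScalarTower F A A] [SMulCommClass F A A], (2 : F) ≠ 0 → IsAlt A →
  (∀ (x : Fin 5 → A) (y u v : A), as (nstar x y) u v ∈ ZN F A) →
  pr F (pr F (PI F A) (Dideal F A)) (Dideal F A) ≤ ZN F A

/-- TCI-L3: the chain of ideals -/
def S_L3 : Prop := ∀ (F : Type) [Field F] (A : Type) [NonUnitalNonAssocRing A] [Module F A]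
    [IsScalarTower F A A] [SMulCommClass F A A], IsAlt A →
  pr F (pr F (ZN F A) (Dideal F A)) (Dideal F A) = ⊥ →
  pr F (pr F (PI F A) (Dideal F A)) (Dideal F A) ≤ ZN F A →
  ¬ PI F A ≤ nucleus F A →
  ∃ I : Submodule F A, IsIdeal F A I ∧ (∀ u ∈ I, ∀ v ∈ I, u * v = 0) ∧ Chr F I ∧ ¬ I ≤ nucleus F A

/-- TCI-C: the certificate -/
def S_C : Prop := ∀ (F : Type) [Field F] (A : Type) [NonUnitalNonAssocRing A] [Module F A]
    [IsScalarTower F A A] [SMulCommClass F A A], (2 : F) ≠ 0 → (3 : F) ≠ 0 → IsAlt A →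
  ∀ (x : Fin 5 → A) (y u v : A), as (nstar x y) u v ∈ ZN F A

/-- TCI-W: the witness -/
def S_W : Prop := ∀ (F : Type) [Field F], (2 : F) ≠ 0 → (3 : F) ≠ 0 →
  ∃ (W : Type) (_ : NonUnitalNonAssocRing W) (_ : Module F W) (_ : IsScalarTower F W W)
    (_ : SMulCommClass F W W), IsAlt W ∧ ∃ (x : Fin 5 → W) (y a u v : W), as (br (nstar x y) a) u v ≠ 0

/-- the final statement -/
def S_FIN : Prop := ∀ (F : Type) [Field F], (2 : F) ≠ 0 → (3 : F) ≠ 0 →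
  ∃ I : Submodule F (FreeAlt F ℕ), IsIdeal F (FreeAlt F ℕ) I ∧ (∀ u ∈ I, ∀ v ∈ I, u * v = 0) ∧ Chr F I ∧
    ¬ I ≤ nucleus F (FreeAlt F ℕ)

/-- TCI-ASM: assembly -/
def S_ASM : Prop := S_L1 → S_L2 → S_L3 → S_C → S_W → S_FIN

end Pool.Agent.W429.TCI
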