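import Pool.Agent.Helper805.Nuc.Alt
import Pool.Agent.Helper805.Nuc.NFun
set_option autoImplicit false

/-! Trivial characteristic ideals: definitions. -/

namespace Pool.Agent.W429.TCI
open Pool.Agent.Helper805.Nuc.Tens Pool.Agent.Helper805.Nuc.Free Pool.Agent.Helper805.Nuc.NFun
  Pool.Agent.Helper805.Nuc.Alt

section
variable {R : Type} [NonUnitalNonAssocRing R]

/-- one term of `nstar`: `(a1,a2,a3) ∘ (a4,a5,y)` -/
def Gp (a1 a2 a3 a4 a5 y : R) : R := jo (as a1 a2 a3) (as a4 a5 y)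

/-- the alternating sum over `x` of `(x1,x2,x3) ∘ (x4,x5,y)` -/
def nstar (x : Fin 5 → R) (y : R) : R :=
  ∑ σ : Equiv.Perm (Fin 5), ((Equiv.Perm.sign σ : ℤˣ) : ℤ) • Gp (x (σ 0)) (x (σ 1)) (x (σ 2)) (x (σ 3)) (x (σ 4)) y

end

section
variable (Φ : Type) [CommRing Φ] (A : Type) [NonUnitalNonAssocRing A] [Module Φ A] [IsScalarTower Φ A A]
  [SMulCommClass Φ A A]

variable {A} in
/-- the product of two submodules, taken in both orders -/
def pr (I J : Submodule Φ A) : Submodule Φ A :=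
  Submodule.span Φ {z | ∃ i ∈ I, ∃ j ∈ J, z = i * j ∨ z = j * i}

/-- the ideal generated by all commutators `[nstar x y, a]` -/
def PI : Submodule Φ A := idealGen Φ A {z | ∃ (x : Fin 5 → A) (y a : A), z = br (nstar x y) a}

variable {A} in
/-- derivations -/
def IsDer (δ : A →ₗ[Φ] A) : Prop := ∀ a b : A, δ (a * b) = δ a * b + a * δ b

variable {A} in
/-- stable under all derivations -/
def Chr (I : Submodule Φ A) : Prop := ∀ δ : A →ₗ[Φ] A, IsDer Φ δ → ∀ a ∈ I, δ a ∈ I

end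

end Pool.Agent.W429.TCI
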