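import Pool.Agent.W429.TCI.C.Cert
import Pool.Agent.W377.TCI.C1
import Pool.Agent.W563.TCI.C4
import Pool.Agent.W45.TCI.C5
import Pool.Agent.W366.TCI.L1
import Pool.Agent.W356.TCI.L2
import Pool.Agent.W918.TCI.L3
import Pool.Agent.W978.TCI.Asm
import Pool.Agent.W376.TCI.WitZ
import Pool.Agent.W140.TCI.C2
import Pool.Agent.W465.TCI.C3
set_option autoImplicit false

/-! Assembly. -/

namespace Pool.Agent.W429.TCI
open Pool.Agent.Helper805.Nuc.Tens Pool.Agent.Helper805.Nuc.Free Pool.Agent.Helper805.Nuc.NFun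
  Pool.Agent.Helper805.Nuc.Alt

theorem fin : S_FIN :=
  Pool.Agent.W978.TCI.asm Pool.Agent.W366.TCI.l1 (Pool.Agent.W356.TCI.l2 Pool.Agent.W366.TCI.l1)
    Pool.Agent.W918.TCI.l3
    (Pool.Agent.W45.TCIC5.c5 Pool.Agent.W377.TCI.c1 Pool.Agent.W465.TCI.c3 Pool.Agent.W563.TCI.C4.c4 (C.cert Pool.Agent.W140.TCI.c2))
    Pool.Agent.W376.TCI.WitZ.w

end Pool.Agent.W429.TCI
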