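import Mathlib
set_option autoImplicit false

/-! Structure constants of a 65-dimensional alternative superalgebra over the integers.
`degZ` lists the bidegrees (number of y, number of x) of the basis vectors; basis vector 0 is `x` (odd), basis
vector 1 is `y` (even), basis vector 64 spans the top component (1,8). An entry `(j, l)` of the list `row i` says
that the product of the basis vectors `i` and `j` is the sum of `c` times basis vector `k` over `(k, c)` in `l`;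
missing pairs have product zero. -/

namespace Pool.Agent.W429.TCI.WData

noncomputable def degZ : List (ℕ × ℕ) := [(0, 1), (1, 0), (0, 2), (1, 1), (1, 1), (0, 3), (0, 3), (1, 2), (1, 2), (1, 2), (1, 2), (0, 4), (0, 4), (0, 4), (1, 3), (1, 3), (1, 3), (1, 3), (1, 3), (1, 3), (1, 3), (1, 3), (0, 5), (0, 5), (0, 5), (0, 5), (1, 4), (1, 4), (1, 4), (1, 4), (1, 4), (1, 4), (1, 4), (1, 4), (1, 4), (1, 4), (1, 4), (0, 6), (0, 6), (0, 6), (0, 6), (0, 6), (0, 6), (1, 5), (1, 5), (1, 5), (1, 5), (1, 5), (1, 5), (1, 5), (0, 7), (0, 7), (0, 7), (0, 7), (0, 7), (0, 7), (1, 6), (1, 6), (1, 6), (1, 6), (0, 8), (0, 8), (1, 7), (1, 7), (1, 8)]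

noncomputable def row0 : List (ℕ × List (ℕ × ℤ)) := [(0, [(2, .ofNat 1)]),
  (1, [(3, .ofNat 1)]),
  (2, [(5, .ofNat 1)]),
  (3, [(7, .ofNat 1)]),
  (4, [(8, .ofNat 1)]),
  (5, [(11, .negSucc 1), (12, .ofNat 2), (13, .ofNat 1)]),
  (6, [(11, .ofNat 1)]),
  (7, [(17, .ofNat 1)]),
  (8, [(15, .ofNat 1)]),
  (9, [(19, .ofNat 1)]),
  (10, [(20, .ofNat 1)]),
  (11, [(22, .negSucc 1), (23, .ofNat 1), (24, .ofNat 1), (25, .ofNat 1)]),
  (12, [(22, .negSucc 2), (23, .ofNat 2), (25, .ofNat 2)]),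
  (13, [(23, .ofNat 1)]),
  (14, [(26, .negSucc 0), (27, .ofNat 2), (28, .negSucc 0), (29, .negSucc 0), (30, .ofNat 1), (32, .ofNat 1), (33, .ofNat 2), (34, .negSucc 0), (36, .ofNat 1)]),
  (15, [(26, .ofNat 3), (27, .ofNat 74), (28, .ofNat 5), (29, .negSucc 1), (30, .ofNat 8), (31, .negSucc 2), (32, .ofNat 2), (33, .negSucc 0), (34, .ofNat 1)]),
  (16, [(26, .ofNat 14), (27, .ofNat 14), (28, .ofNat 7), (30, .ofNat 7), (31, .ofNat 7)]),
  (17, [(26, .negSucc 0), (27, .ofNat 1), (28, .negSucc 0), (30, .ofNat 1), (31, .negSucc 0), (32, .ofNat 1), (33, .ofNat 2), (34, .negSucc 0), (35, .negSucc 0), (36, .negSucc 0)]),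
  (18, [(26, .ofNat 19), (27, .ofNat 10), (28, .negSucc 0), (29, .negSucc 4), (30, .negSucc 3), (31, .negSucc 0)]),
  (19, [(26, .negSucc 5), (27, .ofNat 10), (28, .ofNat 3), (29, .ofNat 1), (30, .negSucc 5), (31, .ofNat 3)]),
  (20, [(26, .negSucc 19), (27, .ofNat 65), (28, .ofNat 22), (29, .negSucc 30), (30, .ofNat 20), (31, .negSucc 27), (33, .negSucc 7), (34, .negSucc 2), (35, .negSucc 1), (36, .negSucc 0)]),
  (21, [(26, .ofNat 2), (27, .negSucc 13), (28, .ofNat 4), (29, .negSucc 5), (30, .negSucc 2), (31, .ofNat 4), (32, .ofNat 1)]),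
  (22, [(37, .negSucc 2), (38, .negSucc 0), (39, .ofNat 3), (40, .ofNat 1), (41, .ofNat 1)]),
  (23, [(37, .negSucc 5), (38, .negSucc 1), (39, .ofNat 4), (41, .ofNat 3), (42, .ofNat 2)]),
  (24, [(38, .ofNat 1)]),
  (25, [(40, .ofNat 1)]),
  (26, [(44, .negSucc 3)]),
  (27, [(43, .negSucc 2), (44, .negSucc 10)]),
  (28, [(43, .ofNat 8), (44, .ofNat 20), (45, .negSucc 0), (46, .ofNat 1)]),
  (29, [(43, .negSucc 3), (44, .ofNat 2), (45, .negSucc 0), (46, .negSucc 1)]),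
  (30, [(43, .negSucc 5), (44, .negSucc 3), (45, .negSucc 0), (46, .negSucc 3)]),
  (31, [(43, .ofNat 6), (44, .ofNat 14), (45, .ofNat 1), (46, .ofNat 1)]),
  (32, [(43, .negSucc 34), (44, .negSucc 141), (45, .negSucc 0), (46, .negSucc 0), (47, .ofNat 1), (48, .negSucc 0)]),
  (33, [(43, .negSucc 25), (44, .negSucc 118), (45, .negSucc 0), (46, .negSucc 0), (47, .negSucc 0), (48, .negSucc 0)]),
  (34, [(43, .ofNat 18), (44, .ofNat 80), (45, .ofNat 2), (47, .negSucc 2), (48, .ofNat 2)]),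
  (35, [(43, .ofNat 56), (44, .ofNat 191), (45, .negSucc 5), (46, .ofNat 5), (47, .ofNat 2), (49, .ofNat 1)]),
  (36, [(43, .negSucc 186), (44, .negSucc 695), (45, .ofNat 1), (46, .negSucc 16), (48, .ofNat 6), (49, .negSucc 0)]),
  (37, [(50, .negSucc 9), (51, .negSucc 3), (52, .ofNat 3), (53, .negSucc 11), (54, .negSucc 7), (55, .ofNat 7)]),
  (38, [(50, .negSucc 54), (51, .negSucc 103), (52, .negSucc 15), (53, .ofNat 42), (54, .negSucc 8), (55, .negSucc 51)]),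
  (39, [(50, .negSucc 4), (51, .negSucc 4), (52, .negSucc 2), (53, .ofNat 11), (54, .negSucc 8), (55, .ofNat 4)]),
  (40, [(50, .negSucc 12), (51, .negSucc 66), (52, .ofNat 7), (53, .ofNat 7), (54, .negSucc 8), (55, .negSucc 48)]),
  (41, [(50, .negSucc 10), (51, .ofNat 4), (52, .ofNat 10), (53, .negSucc 3), (54, .negSucc 6), (55, .negSucc 13)]),
  (42, [(50, .negSucc 107), (51, .negSucc 243), (52, .negSucc 10), (53, .ofNat 24), (54, .negSucc 8), (55, .negSucc 107)]),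
  (43, [(56, .ofNat 11), (57, .negSucc 3)]),
  (44, [(56, .negSucc 2), (57, .ofNat 1)]),
  (45, [(56, .negSucc 7), (57, .ofNat 3)]),
  (46, [(56, .negSucc 11), (57, .ofNat 5)]),
  (47, [(56, .negSucc 0), (57, .negSucc 0), (58, .negSucc 0)]),
  (48, [(56, .negSucc 54)]),
  (49, [(56, .ofNat 44), (57, .negSucc 2), (58, .ofNat 3), (59, .negSucc 0)]),
  (50, [(60, .ofNat 3), (61, .negSucc 17)]),
  (51, [(60, .negSucc 1), (61, .ofNat 10)]),
  (52, [(60, .ofNat 1), (61, .negSucc 1)]),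
  (53, [(60, .negSucc 0), (61, .ofNat 14)]),
  (54, [(60, .ofNat 10), (61, .ofNat 10)]),
  (55, [(60, .ofNat 2), (61, .negSucc 7)]),
  (57, [(62, .ofNat 2)]),
  (58, [(62, .negSucc 53), (63, .ofNat 1)]),
  (59, [(62, .negSucc 181), (63, .ofNat 5)]),
  (62, [(64, .negSucc 0)])]

noncomputable def row1 : List (ℕ × List (ℕ × ℤ)) := [(0, [(4, .ofNat 1)]),
  (2, [(8, .negSucc 0), (9, .ofNat 1), (10, .ofNat 1)]),
  (5, [(14, .negSucc 0), (15, .ofNat 1), (16, .ofNat 1), (18, .ofNat 1), (21, .negSucc 0)]),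
  (6, [(14, .ofNat 1), (15, .negSucc 0), (16, .ofNat 1), (19, .ofNat 1), (21, .negSucc 0)]),
  (11, [(26, .ofNat 9), (27, .negSucc 56), (28, .negSucc 15), (29, .ofNat 28), (30, .negSucc 11), (31, .ofNat 16), (32, .ofNat 9), (33, .negSucc 1), (34, .ofNat 3), (35, .ofNat 2)]),
  (12, [(26, .negSucc 5), (27, .negSucc 58), (28, .negSucc 13), (29, .ofNat 18), (30, .negSucc 11), (31, .ofNat 12), (32, .ofNat 9), (33, .negSucc 1), (34, .ofNat 3), (35, .ofNat 2)]),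
  (13, [(26, .ofNat 7), (27, .negSucc 29), (28, .ofNat 6), (29, .ofNat 21), (30, .negSucc 11), (31, .ofNat 6), (32, .negSucc 3), (33, .negSucc 0), (34, .negSucc 3), (35, .negSucc 0)]),
  (22, [(43, .negSucc 56), (44, .negSucc 175), (45, .ofNat 16), (46, .negSucc 9), (47, .negSucc 0)]),
  (23, [(43, .negSucc 8), (44, .ofNat 133), (45, .negSucc 9), (46, .negSucc 11), (47, .negSucc 2), (49, .ofNat 1)]),
  (24, [(43, .negSucc 14), (44, .negSucc 7), (45, .ofNat 4), (46, .negSucc 3), (47, .negSucc 0)]),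
  (25, [(43, .negSucc 48), (44, .negSucc 318), (45, .ofNat 22), (46, .negSucc 7), (47, .ofNat 1), (49, .negSucc 0)]),
  (37, [(56, .ofNat 185), (57, .negSucc 43), (58, .negSucc 3)]),
  (38, [(56, .negSucc 144), (57, .ofNat 50), (58, .negSucc 3)]),
  (39, [(56, .ofNat 89), (57, .negSucc 19), (58, .negSucc 3)]),
  (40, [(56, .ofNat 208), (57, .negSucc 48), (58, .negSucc 4)]),
  (41, [(56, .ofNat 48), (57, .negSucc 0), (58, .negSucc 2)]),
  (42, [(56, .ofNat 44), (57, .negSucc 0), (58, .negSucc 4)]),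
  (50, [(62, .negSucc 0)]),
  (51, [(62, .ofNat 2)]),
  (52, [(62, .negSucc 2)]),
  (53, [(62, .negSucc 0)]),
  (54, [(62, .ofNat 2)]),
  (55, [(62, .negSucc 1)]),
  (60, [(64, .ofNat 1)])]

noncomputable def row2 : List (ℕ × List (ℕ × ℤ)) := [(0, [(6, .ofNat 1)]),
  (1, [(7, .ofNat 1), (8, .ofNat 1), (10, .negSucc 0)]),
  (2, [(11, .negSucc 0), (12, .ofNat 1), (13, .ofNat 1)]),
  (3, [(14, .ofNat 1), (17, .ofNat 1), (20, .negSucc 0)]),
  (4, [(15, .ofNat 1), (19, .negSucc 0), (21, .ofNat 1)]),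
  (5, [(22, .negSucc 0), (23, .ofNat 1), (25, .ofNat 1)]),
  (6, [(22, .negSucc 0), (24, .ofNat 1), (25, .ofNat 1)]),
  (7, [(26, .negSucc 1), (27, .ofNat 3), (28, .negSucc 1), (30, .ofNat 1), (31, .negSucc 1), (33, .ofNat 6), (35, .negSucc 1)]),
  (8, [(26, .ofNat 5), (27, .ofNat 61), (28, .ofNat 10), (29, .negSucc 9), (30, .ofNat 5), (31, .negSucc 0), (32, .negSucc 1), (33, .ofNat 1), (34, .negSucc 0)]),
  (9, [(26, .ofNat 1), (27, .ofNat 22), (28, .negSucc 1), (29, .ofNat 2), (30, .ofNat 1), (31, .ofNat 16)]),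
  (10, [(26, .negSucc 1), (27, .ofNat 76), (28, .ofNat 20), (29, .negSucc 34), (30, .ofNat 15), (31, .negSucc 28), (33, .negSucc 4), (34, .negSucc 0), (35, .negSucc 0), (36, .negSucc 0)]),
  (11, [(37, .negSucc 0), (41, .ofNat 1), (42, .ofNat 1)]),
  (12, [(39, .negSucc 0), (40, .negSucc 0), (41, .ofNat 1), (42, .ofNat 2)]),
  (13, [(37, .negSucc 5), (38, .negSucc 1), (39, .ofNat 4), (40, .ofNat 1), (41, .ofNat 3), (42, .ofNat 1)]),
  (14, [(43, .negSucc 206), (44, .negSucc 933), (45, .ofNat 31), (46, .negSucc 8), (47, .negSucc 3), (49, .ofNat 1)]),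
  (15, [(43, .negSucc 186), (44, .negSucc 778), (45, .ofNat 17), (46, .negSucc 14), (47, .negSucc 1)]),
  (16, [(43, .ofNat 7), (44, .negSucc 48), (45, .ofNat 7), (46, .negSucc 6)]),
  (17, [(43, .negSucc 350), (44, .negSucc 1490), (45, .ofNat 37), (46, .negSucc 19), (47, .negSucc 13), (48, .negSucc 5)]),
  (18, [(43, .negSucc 9), (44, .negSucc 113), (45, .ofNat 7), (46, .ofNat 12)]),
  (19, [(43, .ofNat 24), (44, .ofNat 70), (45, .ofNat 11), (46, .ofNat 14)]),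
  (20, [(43, .negSucc 82), (44, .negSucc 405), (45, .ofNat 21), (46, .negSucc 8), (47, .ofNat 2), (48, .negSucc 1), (49, .ofNat 1)]),
  (21, [(43, .ofNat 100), (44, .ofNat 262), (45, .ofNat 13), (46, .ofNat 23), (48, .negSucc 0)]),
  (22, [(50, .ofNat 60), (51, .ofNat 4), (52, .ofNat 10), (53, .ofNat 43), (54, .negSucc 9), (55, .negSucc 74)]),
  (23, [(50, .negSucc 27), (51, .negSucc 125), (52, .ofNat 4), (53, .ofNat 43), (54, .negSucc 8), (55, .negSucc 110)]),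
  (24, [(50, .negSucc 27), (51, .negSucc 96), (52, .negSucc 15), (53, .ofNat 23), (54, .negSucc 8), (55, .negSucc 60)]),
  (25, [(50, .negSucc 15), (51, .negSucc 74), (52, .negSucc 17), (53, .ofNat 5), (54, .negSucc 8), (55, .negSucc 40)]),
  (26, [(56, .ofNat 6), (57, .negSucc 1)]),
  (27, [(56, .ofNat 6), (57, .negSucc 0)]),
  (28, [(56, .ofNat 5), (57, .negSucc 2)]),
  (29, [(56, .negSucc 9), (57, .ofNat 3)]),
  (30, [(57, .negSucc 0)]),
  (31, [(56, .ofNat 1), (57, .negSucc 0)]),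
  (32, [(56, .ofNat 146), (57, .negSucc 17), (58, .ofNat 1)]),
  (33, [(56, .ofNat 126), (57, .negSucc 12), (58, .ofNat 2)]),
  (34, [(56, .negSucc 231), (57, .ofNat 36)]),
  (35, [(56, .negSucc 23), (58, .ofNat 1), (59, .negSucc 0)]),
  (36, [(56, .negSucc 23), (57, .negSucc 86), (58, .negSucc 11), (59, .ofNat 2)]),
  (37, [(60, .negSucc 92), (61, .negSucc 18)]),
  (38, [(60, .negSucc 130), (61, .ofNat 285)]),
  (39, [(60, .negSucc 108), (61, .ofNat 125)]),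
  (40, [(60, .negSucc 106), (61, .ofNat 37)]),
  (41, [(60, .negSucc 76), (61, .negSucc 134)]),
  (42, [(60, .negSucc 166), (61, .ofNat 536)]),
  (43, [(62, .negSucc 2)]),
  (44, [(62, .ofNat 1)]),
  (45, [(62, .ofNat 4)]),
  (46, [(62, .ofNat 6)]),
  (47, [(62, .ofNat 28), (63, .negSucc 0)]),
  (48, [(62, .ofNat 87), (63, .negSucc 0)]),
  (49, [(62, .negSucc 0), (63, .negSucc 1)]),
  (56, [(64, .ofNat 1)]),
  (57, [(64, .ofNat 2)]),
  (58, [(64, .ofNat 27)]),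
  (59, [(64, .ofNat 142)])]

noncomputable def row3 : List (ℕ × List (ℕ × ℤ)) := [(0, [(10, .ofNat 1)]),
  (2, [(14, .negSucc 0), (18, .ofNat 1), (20, .ofNat 1)]),
  (5, [(26, .negSucc 0), (27, .ofNat 53), (28, .ofNat 16), (29, .negSucc 17), (30, .ofNat 14), (31, .negSucc 21), (32, .ofNat 1), (33, .negSucc 5), (35, .negSucc 0), (36, .negSucc 0)]),
  (6, [(26, .ofNat 5), (27, .negSucc 81), (28, .negSucc 9), (29, .ofNat 29), (30, .negSucc 13), (31, .ofNat 18), (32, .ofNat 2), (33, .ofNat 3), (34, .negSucc 0), (35, .ofNat 2), (36, .ofNat 1)]),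
  (11, [(43, .ofNat 20), (44, .ofNat 211), (45, .ofNat 6), (46, .negSucc 7), (47, .ofNat 3), (48, .negSucc 0), (49, .ofNat 2)]),
  (12, [(43, .ofNat 52), (44, .ofNat 233), (45, .ofNat 10), (46, .ofNat 4), (47, .ofNat 3), (48, .negSucc 0), (49, .ofNat 2)]),
  (13, [(43, .ofNat 202), (44, .ofNat 897), (45, .negSucc 23), (46, .ofNat 14), (47, .ofNat 5), (48, .negSucc 2)]),
  (22, [(56, .ofNat 39), (57, .ofNat 8), (58, .negSucc 2)]),
  (23, [(56, .negSucc 159), (57, .ofNat 66), (58, .ofNat 2), (59, .negSucc 0)]),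
  (24, [(56, .negSucc 50), (57, .ofNat 26), (58, .negSucc 2)]),
  (25, [(56, .ofNat 318), (57, .negSucc 101), (58, .negSucc 7), (59, .ofNat 1)]),
  (37, [(62, .ofNat 46), (63, .negSucc 3)]),
  (38, [(62, .ofNat 194), (63, .negSucc 3)]),
  (39, [(62, .ofNat 94), (63, .negSucc 3)]),
  (40, [(62, .ofNat 10), (63, .negSucc 4)]),
  (41, [(62, .ofNat 118), (63, .negSucc 2)]),
  (42, [(62, .ofNat 88), (63, .negSucc 4)]),
  (50, [(64, .ofNat 4)]),
  (51, [(64, .negSucc 3)]),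
  (52, [(64, .ofNat 2)]),
  (53, [(64, .ofNat 2)]),
  (54, [(64, .ofNat 10)]),
  (55, [(64, .ofNat 4)])]

noncomputable def row4 : List (ℕ × List (ℕ × ℤ)) := [(0, [(9, .ofNat 1)]),
  (2, [(16, .ofNat 1), (19, .ofNat 1), (21, .negSucc 0)]),
  (5, [(26, .ofNat 13), (27, .ofNat 23), (28, .ofNat 2), (29, .ofNat 19), (30, .negSucc 12), (31, .ofNat 19), (32, .negSucc 4), (33, .ofNat 2), (34, .negSucc 1)]),
  (6, [(26, .ofNat 6), (27, .negSucc 8), (28, .negSucc 5), (29, .ofNat 7), (30, .negSucc 0), (31, .ofNat 7), (32, .ofNat 5), (33, .negSucc 1), (34, .ofNat 2)]),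
  (11, [(43, .ofNat 23), (44, .ofNat 128), (45, .negSucc 18), (46, .negSucc 0), (47, .ofNat 2)]),
  (12, [(43, .ofNat 43), (44, .ofNat 150), (45, .negSucc 26), (46, .negSucc 0), (47, .ofNat 2)]),
  (13, [(43, .negSucc 10), (44, .ofNat 8), (45, .ofNat 8), (46, .negSucc 7), (47, .negSucc 0)]),
  (22, [(56, .negSucc 31), (57, .ofNat 15)]),
  (23, [(56, .negSucc 298), (57, .ofNat 92), (58, .ofNat 1)]),
  (24, [(56, .negSucc 217), (57, .ofNat 69)]),
  (25, [(56, .ofNat 183), (57, .negSucc 41), (58, .negSucc 0)]),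
  (37, [(62, .ofNat 57)]),
  (38, [(62, .ofNat 61)]),
  (39, [(62, .ofNat 49)]),
  (40, [(62, .ofNat 93)]),
  (41, [(62, .ofNat 49)]),
  (42, [(62, .ofNat 7)]),
  (52, [(64, .ofNat 2)]),
  (53, [(64, .negSucc 1)]),
  (54, [(64, .negSucc 1)])]

noncomputable def row5 : List (ℕ × List (ℕ × ℤ)) := [(0, [(12, .ofNat 1)]),
  (1, [(14, .ofNat 1), (17, .ofNat 1), (18, .negSucc 0), (19, .ofNat 1), (20, .negSucc 0)]),
  (2, [(22, .negSucc 0), (23, .ofNat 2), (24, .negSucc 0), (25, .ofNat 1)]),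
  (3, [(26, .ofNat 32), (27, .ofNat 8), (28, .negSucc 19), (29, .ofNat 13), (30, .negSucc 8), (31, .ofNat 16), (32, .ofNat 3), (33, .ofNat 9), (34, .ofNat 3), (35, .ofNat 1)]),
  (4, [(26, .ofNat 24), (27, .ofNat 71), (28, .ofNat 10), (29, .ofNat 4), (30, .ofNat 5), (31, .ofNat 9), (32, .negSucc 1), (33, .ofNat 1), (34, .negSucc 0)]),
  (5, [(37, .negSucc 1), (38, .negSucc 0), (40, .negSucc 0), (41, .ofNat 2), (42, .ofNat 3)]),
  (6, [(37, .negSucc 1), (40, .ofNat 1), (41, .ofNat 1), (42, .ofNat 1)]),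
  (7, [(43, .negSucc 314), (44, .negSucc 1271), (45, .ofNat 11), (46, .negSucc 21), (47, .negSucc 7), (48, .negSucc 5), (49, .negSucc 2)]),
  (8, [(43, .negSucc 158), (44, .negSucc 750), (45, .negSucc 13), (46, .negSucc 5), (47, .ofNat 1)]),
  (9, [(43, .ofNat 8), (44, .negSucc 83), (45, .ofNat 27), (46, .ofNat 14)]),
  (10, [(43, .negSucc 28), (44, .negSucc 183), (45, .negSucc 21), (46, .ofNat 2), (47, .ofNat 5), (48, .negSucc 1), (49, .ofNat 1)]),
  (11, [(50, .negSucc 218), (51, .negSucc 309), (52, .negSucc 43), (53, .negSucc 25), (54, .negSucc 5), (55, .negSucc 48)]),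
  (12, [(50, .negSucc 286), (51, .negSucc 429), (52, .negSucc 47), (53, .negSucc 23), (54, .negSucc 4), (55, .negSucc 96)]),
  (13, [(50, .negSucc 35), (51, .negSucc 142), (52, .ofNat 20), (53, .ofNat 43), (54, .negSucc 8), (55, .negSucc 128)]),
  (14, [(56, .ofNat 402), (57, .negSucc 98), (58, .negSucc 3), (59, .ofNat 2)]),
  (15, [(56, .ofNat 271), (57, .negSucc 39), (58, .ofNat 3)]),
  (16, [(56, .ofNat 294), (57, .negSucc 104)]),
  (17, [(56, .ofNat 781), (57, .negSucc 15), (58, .ofNat 19), (59, .negSucc 0)]),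
  (18, [(56, .ofNat 26), (57, .ofNat 5)]),
  (19, [(56, .negSucc 183), (57, .ofNat 67)]),
  (20, [(56, .ofNat 383), (57, .negSucc 79), (58, .negSucc 2)]),
  (21, [(56, .negSucc 41), (57, .ofNat 25), (58, .ofNat 1)]),
  (22, [(60, .negSucc 138), (61, .ofNat 229)]),
  (23, [(60, .negSucc 226), (61, .ofNat 983)]),
  (24, [(60, .negSucc 168), (61, .ofNat 481)]),
  (25, [(60, .negSucc 104), (61, .negSucc 74)]),
  (26, [(62, .negSucc 3)]),
  (27, [(62, .negSucc 1)]),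
  (28, [(62, .negSucc 7)]),
  (29, [(62, .ofNat 4)]),
  (30, [(62, .negSucc 7)]),
  (32, [(62, .negSucc 93)]),
  (33, [(62, .negSucc 141), (63, .ofNat 2)]),
  (34, [(62, .ofNat 82), (63, .ofNat 1)]),
  (35, [(62, .ofNat 100), (63, .negSucc 3)]),
  (36, [(62, .ofNat 92), (63, .negSucc 3)]),
  (43, [(64, .ofNat 3)]),
  (44, [(64, .negSucc 0)]),
  (45, [(64, .negSucc 1)]),
  (46, [(64, .negSucc 5)]),
  (47, [(64, .negSucc 25)]),
  (48, [(64, .negSucc 82)]),
  (49, [(64, .negSucc 6)])]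

noncomputable def row6 : List (ℕ × List (ℕ × ℤ)) := [(0, [(13, .ofNat 1)]),
  (1, [(15, .ofNat 1), (17, .ofNat 1), (18, .ofNat 1), (19, .negSucc 0), (20, .negSucc 0)]),
  (2, [(22, .negSucc 0), (23, .ofNat 1), (25, .ofNat 1)]),
  (3, [(26, .negSucc 15), (27, .negSucc 66), (28, .negSucc 5), (29, .ofNat 17), (30, .negSucc 7), (31, .ofNat 9), (32, .negSucc 0), (33, .ofNat 9), (34, .negSucc 1), (35, .negSucc 1), (36, .ofNat 1)]),
  (4, [(26, .negSucc 7), (27, .ofNat 40), (28, .ofNat 6), (29, .negSucc 22), (30, .ofNat 11), (31, .negSucc 11), (32, .ofNat 3), (33, .negSucc 0), (34, .ofNat 1)]),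
  (5, [(37, .negSucc 4), (38, .negSucc 1), (39, .ofNat 3), (41, .ofNat 3), (42, .ofNat 2)]),
  (6, [(37, .ofNat 4), (38, .ofNat 2), (39, .negSucc 2), (40, .negSucc 0), (41, .negSucc 0)]),
  (7, [(43, .negSucc 346), (44, .negSucc 1411), (45, .ofNat 31), (46, .negSucc 21), (47, .negSucc 15), (48, .negSucc 5), (49, .ofNat 1)]),
  (8, [(43, .negSucc 100), (44, .negSucc 487), (45, .ofNat 24), (46, .ofNat 1), (47, .negSucc 2), (48, .negSucc 0)]),
  (9, [(43, .ofNat 16), (44, .ofNat 92), (45, .negSucc 0), (46, .ofNat 6)]),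
  (10, [(43, .negSucc 2), (44, .negSucc 165), (45, .ofNat 22), (46, .ofNat 7), (47, .ofNat 3), (48, .negSucc 2)]),
  (11, [(50, .negSucc 81), (51, .negSucc 231), (52, .negSucc 9), (53, .ofNat 43), (54, .negSucc 8), (55, .negSucc 142)]),
  (12, [(50, .negSucc 189), (51, .negSucc 395), (52, .negSucc 25), (53, .ofNat 17), (54, .negSucc 7), (55, .negSucc 166)]),
  (13, [(50, .ofNat 4), (51, .negSucc 69), (52, .ofNat 12), (53, .ofNat 51), (54, .negSucc 8), (55, .negSucc 102)]),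
  (14, [(56, .ofNat 648), (57, .negSucc 125), (58, .ofNat 4), (59, .negSucc 0)]),
  (15, [(56, .ofNat 493), (57, .negSucc 105), (58, .negSucc 0)]),
  (16, [(56, .ofNat 168), (57, .negSucc 62)]),
  (17, [(56, .ofNat 791), (57, .negSucc 34), (58, .ofNat 11)]),
  (18, [(56, .ofNat 224), (57, .negSucc 52)]),
  (19, [(56, .ofNat 14), (57, .ofNat 9)]),
  (20, [(56, .ofNat 436), (57, .negSucc 73), (58, .negSucc 1), (59, .negSucc 0)]),
  (21, [(56, .ofNat 189), (57, .negSucc 47)]),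
  (22, [(60, .negSucc 72), (61, .negSucc 137)]),
  (23, [(60, .negSucc 136), (61, .ofNat 364)]),
  (24, [(60, .negSucc 102), (61, .ofNat 90)]),
  (25, [(60, .negSucc 94), (61, .negSucc 5)]),
  (26, [(62, .negSucc 3)]),
  (27, [(62, .negSucc 1)]),
  (30, [(62, .negSucc 7)]),
  (31, [(62, .ofNat 4)]),
  (32, [(62, .negSucc 101), (63, .ofNat 1)]),
  (33, [(62, .negSucc 157), (63, .ofNat 2)]),
  (34, [(62, .ofNat 114)]),
  (35, [(62, .ofNat 112), (63, .negSucc 3)]),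
  (36, [(62, .ofNat 308), (63, .negSucc 1)]),
  (43, [(64, .ofNat 3)]),
  (44, [(64, .negSucc 0)]),
  (45, [(64, .negSucc 3)]),
  (46, [(64, .negSucc 1)]),
  (47, [(64, .negSucc 31)]),
  (48, [(64, .negSucc 58)]),
  (49, [(64, .negSucc 14)])]

noncomputable def row7 : List (ℕ × List (ℕ × ℤ)) := [(0, [(14, .ofNat 1)]),
  (2, [(26, .negSucc 13), (27, .ofNat 3), (28, .ofNat 18), (29, .negSucc 17), (30, .ofNat 6), (31, .negSucc 17), (32, .negSucc 1), (33, .negSucc 6), (34, .negSucc 3), (35, .negSucc 1), (36, .negSucc 0)]),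
  (5, [(43, .negSucc 82), (44, .negSucc 210), (45, .negSucc 11), (46, .negSucc 18), (47, .ofNat 1), (48, .ofNat 1), (49, .negSucc 0)]),
  (6, [(43, .negSucc 126), (44, .negSucc 587), (45, .ofNat 26), (46, .negSucc 12), (47, .negSucc 0), (48, .ofNat 1)]),
  (11, [(56, .negSucc 216), (57, .ofNat 108), (58, .ofNat 3), (59, .negSucc 1)]),
  (12, [(56, .negSucc 260), (57, .ofNat 120), (58, .ofNat 3), (59, .negSucc 1)]),
  (13, [(56, .negSucc 5), (57, .negSucc 7), (58, .negSucc 9), (59, .ofNat 1)]),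
  (22, [(62, .ofNat 4), (63, .ofNat 1)]),
  (23, [(62, .ofNat 52), (63, .ofNat 1)]),
  (24, [(62, .ofNat 10), (63, .ofNat 1)]),
  (25, [(62, .negSucc 133), (63, .ofNat 1)]),
  (37, [(64, .negSucc 131)]),
  (38, [(64, .negSucc 213)]),
  (39, [(64, .negSucc 167)]),
  (40, [(64, .negSucc 145)]),
  (41, [(64, .negSucc 111)]),
  (42, [(64, .negSucc 217)])]

noncomputable def row8 : List (ℕ × List (ℕ × ℤ)) := [(0, [(21, .ofNat 1)]),
  (2, [(26, .negSucc 6), (27, .ofNat 17), (28, .ofNat 2), (29, .negSucc 5), (30, .ofNat 10), (31, .negSucc 4), (32, .ofNat 4), (33, .negSucc 1), (34, .ofNat 2)]),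
  (5, [(43, .ofNat 120), (44, .ofNat 282), (45, .ofNat 13), (46, .ofNat 31), (48, .negSucc 0)]),
  (6, [(43, .negSucc 79), (44, .negSucc 327), (45, .ofNat 30), (46, .negSucc 9), (47, .negSucc 0), (48, .ofNat 1)]),
  (11, [(56, .ofNat 111), (57, .negSucc 43), (58, .negSucc 1)]),
  (12, [(56, .ofNat 175), (57, .negSucc 79), (58, .negSucc 1)]),
  (13, [(56, .ofNat 55), (57, .negSucc 7)]),
  (22, [(62, .negSucc 54)]),
  (23, [(62, .ofNat 73), (63, .ofNat 1)]),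
  (24, [(62, .ofNat 31)]),
  (25, [(62, .negSucc 112), (63, .negSucc 0)]),
  (37, [(64, .negSucc 74)]),
  (38, [(64, .negSucc 32)]),
  (39, [(64, .negSucc 38)]),
  (40, [(64, .negSucc 96)]),
  (41, [(64, .negSucc 90)]),
  (42, [(64, .ofNat 3)])]

noncomputable def row9 : List (ℕ × List (ℕ × ℤ)) := [(0, [(16, .ofNat 1)]),
  (2, [(27, .ofNat 2), (28, .negSucc 1), (29, .ofNat 6), (30, .negSucc 6), (31, .ofNat 8)]),
  (5, [(43, .negSucc 0), (44, .negSucc 68), (45, .negSucc 4), (46, .negSucc 14)]),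
  (6, [(43, .ofNat 31), (44, .ofNat 41), (45, .ofNat 3), (46, .ofNat 1)]),
  (11, [(56, .negSucc 189), (57, .ofNat 73)]),
  (12, [(56, .negSucc 209), (57, .ofNat 85)]),
  (13, [(56, .negSucc 131), (57, .ofNat 47)]),
  (22, [(62, .negSucc 27)]),
  (23, [(62, .negSucc 163)]),
  (24, [(62, .negSucc 45)]),
  (25, [(62, .ofNat 10)]),
  (37, [(64, .ofNat 28)]),
  (38, [(64, .negSucc 69)]),
  (40, [(64, .ofNat 14)]),
  (42, [(64, .negSucc 41)])]

noncomputable def row10 : List (ℕ × List (ℕ × ℤ)) := [(0, [(18, .ofNat 1)]),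
  (2, [(26, .negSucc 14), (27, .negSucc 16), (28, .ofNat 12), (29, .negSucc 0), (30, .ofNat 5), (31, .negSucc 10), (33, .negSucc 2), (34, .negSucc 1), (35, .negSucc 0)]),
  (5, [(43, .ofNat 106), (44, .ofNat 312), (45, .negSucc 3), (46, .ofNat 28), (47, .ofNat 1), (48, .negSucc 0), (49, .negSucc 0)]),
  (6, [(43, .negSucc 107), (44, .negSucc 389), (45, .ofNat 37), (46, .negSucc 14), (47, .negSucc 3), (48, .ofNat 1), (49, .ofNat 1)]),
  (11, [(56, .ofNat 37), (57, .negSucc 17), (58, .negSucc 2)]),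
  (12, [(56, .ofNat 53), (57, .negSucc 41), (58, .negSucc 2)]),
  (13, [(56, .ofNat 119), (57, .negSucc 23), (58, .negSucc 2)]),
  (22, [(62, .negSucc 95)]),
  (23, [(62, .ofNat 88), (63, .ofNat 1)]),
  (24, [(62, .negSucc 9)]),
  (25, [(62, .negSucc 169), (63, .negSucc 0)]),
  (37, [(64, .negSucc 179)]),
  (38, [(64, .negSucc 69)]),
  (39, [(64, .negSucc 131)]),
  (40, [(64, .negSucc 177)]),
  (41, [(64, .negSucc 167)]),
  (42, [(64, .negSucc 81)])]

noncomputable def row11 : List (ℕ × List (ℕ × ℤ)) := [(0, [(22, .ofNat 1)]),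
  (1, [(26, .ofNat 44), (27, .ofNat 58), (28, .negSucc 11), (29, .ofNat 2), (30, .ofNat 2), (31, .ofNat 11), (32, .negSucc 0), (33, .ofNat 9), (34, .ofNat 2), (35, .negSucc 0)]),
  (2, [(37, .ofNat 2), (38, .ofNat 1), (39, .negSucc 1), (40, .negSucc 0), (42, .ofNat 1)]),
  (3, [(43, .negSucc 474), (44, .negSucc 1894), (45, .ofNat 38), (46, .negSucc 40), (47, .negSucc 14), (48, .negSucc 3), (49, .negSucc 3)]),
  (4, [(43, .negSucc 170), (44, .negSucc 859), (45, .ofNat 16), (46, .negSucc 3), (47, .negSucc 0)]),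
  (5, [(50, .negSucc 17), (51, .negSucc 42), (52, .negSucc 1), (53, .ofNat 13), (54, .negSucc 7), (55, .negSucc 36)]),
  (6, [(50, .negSucc 210), (51, .negSucc 186), (52, .negSucc 87), (53, .negSucc 91), (54, .negSucc 4), (55, .ofNat 109)]),
  (7, [(56, .ofNat 846), (57, .negSucc 13), (58, .ofNat 30), (59, .negSucc 1)]),
  (8, [(56, .ofNat 195), (58, .ofNat 4)]),
  (9, [(56, .negSucc 15), (57, .ofNat 3)]),
  (10, [(56, .ofNat 364), (57, .negSucc 54)]),
  (11, [(60, .negSucc 160), (61, .ofNat 453)]),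
  (12, [(60, .negSucc 172), (61, .ofNat 552)]),
  (13, [(60, .negSucc 154), (61, .ofNat 473)]),
  (14, [(62, .negSucc 381), (63, .negSucc 4)]),
  (15, [(62, .negSucc 289), (63, .negSucc 1)]),
  (16, [(62, .negSucc 69)]),
  (17, [(62, .negSucc 1097), (63, .ofNat 17)]),
  (18, [(62, .negSucc 69)]),
  (19, [(62, .ofNat 24)]),
  (20, [(62, .negSucc 159), (63, .negSucc 5)]),
  (21, [(62, .negSucc 36)]),
  (26, [(64, .ofNat 2)]),
  (27, [(64, .ofNat 4)]),
  (28, [(64, .negSucc 8)]),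
  (30, [(64, .ofNat 2)]),
  (31, [(64, .negSucc 4)]),
  (32, [(64, .ofNat 145)]),
  (33, [(64, .ofNat 170)]),
  (34, [(64, .negSucc 195)]),
  (35, [(64, .negSucc 138)]),
  (36, [(64, .negSucc 401)])]

noncomputable def row12 : List (ℕ × List (ℕ × ℤ)) := [(0, [(24, .ofNat 1)]),
  (1, [(26, .ofNat 68), (27, .ofNat 65), (28, .negSucc 27), (29, .ofNat 31), (30, .negSucc 9), (31, .ofNat 37), (32, .ofNat 2), (33, .ofNat 12), (34, .ofNat 5), (35, .ofNat 2)]),
  (2, [(37, .negSucc 2), (38, .negSucc 0), (39, .ofNat 1), (41, .ofNat 2), (42, .ofNat 2)]),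
  (3, [(43, .negSucc 474), (44, .negSucc 1900), (45, .ofNat 23), (46, .negSucc 31), (47, .negSucc 11), (48, .negSucc 3), (49, .negSucc 3)]),
  (4, [(43, .negSucc 188), (44, .negSucc 871), (45, .negSucc 10), (46, .negSucc 12), (47, .ofNat 2)]),
  (5, [(50, .ofNat 4), (51, .negSucc 69), (52, .ofNat 12), (53, .ofNat 51), (54, .negSucc 8), (55, .negSucc 102)]),
  (6, [(50, .negSucc 132), (51, .negSucc 89), (52, .negSucc 61), (53, .negSucc 57), (54, .negSucc 5), (55, .ofNat 91)]),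
  (7, [(56, .ofNat 832), (57, .negSucc 62), (58, .ofNat 18), (59, .ofNat 1)]),
  (8, [(56, .ofNat 325), (57, .negSucc 45), (58, .ofNat 4)]),
  (9, [(56, .negSucc 53), (57, .ofNat 17)]),
  (10, [(56, .ofNat 446), (57, .negSucc 88)]),
  (11, [(60, .negSucc 172), (61, .ofNat 528)]),
  (12, [(60, .negSucc 184), (61, .ofNat 651)]),
  (13, [(60, .negSucc 166), (61, .ofNat 500)]),
  (14, [(62, .negSucc 409), (63, .negSucc 1)]),
  (15, [(62, .negSucc 285), (63, .ofNat 1)]),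
  (16, [(62, .negSucc 97)]),
  (17, [(62, .negSucc 1025), (63, .ofNat 20)]),
  (18, [(62, .negSucc 21)]),
  (19, [(62, .ofNat 80)]),
  (20, [(62, .negSucc 171), (63, .negSucc 2)]),
  (21, [(62, .ofNat 11)]),
  (26, [(64, .ofNat 2)]),
  (27, [(64, .ofNat 4)]),
  (28, [(64, .negSucc 6)]),
  (29, [(64, .ofNat 2)]),
  (30, [(64, .ofNat 8)]),
  (31, [(64, .negSucc 2)]),
  (32, [(64, .ofNat 169)]),
  (33, [(64, .ofNat 174)]),
  (34, [(64, .negSucc 217)]),
  (35, [(64, .negSucc 162)]),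
  (36, [(64, .negSucc 371)])]

noncomputable def row13 : List (ℕ × List (ℕ × ℤ)) := [(0, [(25, .ofNat 1)]),
  (1, [(26, .negSucc 18), (27, .negSucc 18), (28, .ofNat 4), (29, .negSucc 3), (30, .ofNat 3), (32, .negSucc 4), (33, .ofNat 9), (34, .negSucc 2), (35, .negSucc 3), (36, .ofNat 1)]),
  (2, [(40, .negSucc 0), (41, .ofNat 1), (42, .ofNat 1)]),
  (3, [(43, .negSucc 474), (44, .negSucc 2012), (45, .ofNat 62), (46, .negSucc 28), (47, .negSucc 22), (48, .negSucc 3)]),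
  (4, [(43, .negSucc 92), (44, .negSucc 574), (45, .ofNat 46), (46, .ofNat 3), (47, .negSucc 4), (48, .negSucc 0)]),
  (5, [(50, .negSucc 125), (51, .negSucc 177), (52, .negSucc 37), (53, .negSucc 32), (54, .negSucc 6), (55, .negSucc 10)]),
  (6, [(50, .negSucc 181), (51, .negSucc 272), (52, .negSucc 69), (53, .negSucc 48), (54, .negSucc 6), (55, .negSucc 8)]),
  (7, [(56, .ofNat 812), (57, .negSucc 20), (58, .ofNat 22), (59, .negSucc 0)]),
  (8, [(56, .ofNat 481), (57, .negSucc 101)]),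
  (9, [(56, .ofNat 162), (57, .negSucc 42)]),
  (10, [(56, .ofNat 433), (57, .negSucc 72), (58, .ofNat 1), (59, .negSucc 0)]),
  (11, [(60, .negSucc 138), (61, .ofNat 345)]),
  (12, [(60, .negSucc 182), (61, .ofNat 676)]),
  (13, [(60, .negSucc 108), (61, .ofNat 185)]),
  (14, [(62, .negSucc 327), (63, .negSucc 0)]),
  (15, [(62, .negSucc 299), (63, .negSucc 0)]),
  (16, [(62, .negSucc 55)]),
  (17, [(62, .negSucc 1395), (63, .ofNat 17)]),
  (18, [(62, .negSucc 31)]),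
  (19, [(62, .ofNat 70)]),
  (20, [(62, .negSucc 233), (63, .negSucc 4)]),
  (21, [(62, .ofNat 17), (63, .ofNat 1)]),
  (26, [(64, .ofNat 2)]),
  (27, [(64, .ofNat 4)]),
  (28, [(64, .negSucc 2)]),
  (29, [(64, .negSucc 5)]),
  (30, [(64, .negSucc 7)]),
  (31, [(64, .negSucc 2)]),
  (32, [(64, .ofNat 113)]),
  (33, [(64, .ofNat 150)]),
  (34, [(64, .negSucc 137)]),
  (35, [(64, .negSucc 114)]),
  (36, [(64, .negSucc 267)])]

noncomputable def row14 : List (ℕ × List (ℕ × ℤ)) := [(0, [(26, .negSucc 14), (27, .ofNat 5), (28, .ofNat 17), (29, .negSucc 17), (30, .ofNat 6), (31, .negSucc 18), (32, .negSucc 2), (33, .negSucc 2), (34, .negSucc 2), (35, .negSucc 2)]),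
  (2, [(43, .negSucc 86), (44, .negSucc 289), (45, .negSucc 5), (46, .negSucc 16), (47, .ofNat 3), (48, .ofNat 1), (49, .negSucc 1)]),
  (5, [(56, .negSucc 42), (57, .negSucc 30), (58, .negSucc 10), (59, .ofNat 3)]),
  (6, [(56, .negSucc 195), (57, .ofNat 122), (58, .ofNat 14), (59, .negSucc 2)]),
  (11, [(62, .ofNat 82), (63, .ofNat 4)]),
  (12, [(62, .negSucc 3), (63, .ofNat 4)]),
  (13, [(62, .ofNat 70), (63, .ofNat 1)]),
  (22, [(64, .negSucc 11)]),
  (23, [(64, .ofNat 2)]),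
  (24, [(64, .negSucc 37)]),
  (25, [(64, .negSucc 25)])]

noncomputable def row15 : List (ℕ × List (ℕ × ℤ)) := [(0, [(27, .negSucc 0), (28, .negSucc 0), (29, .ofNat 2), (31, .ofNat 2), (32, .ofNat 5), (33, .negSucc 1), (34, .ofNat 2)]),
  (2, [(43, .negSucc 66), (44, .negSucc 119), (45, .negSucc 1), (46, .negSucc 16), (47, .negSucc 0), (48, .ofNat 1)]),
  (5, [(56, .negSucc 0), (57, .ofNat 2), (58, .negSucc 0)]),
  (6, [(56, .negSucc 57), (57, .ofNat 29)]),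
  (11, [(62, .ofNat 102), (63, .negSucc 1)]),
  (12, [(62, .ofNat 24), (63, .negSucc 1)]),
  (13, [(62, .ofNat 74), (63, .ofNat 1)]),
  (22, [(64, .negSucc 19)]),
  (23, [(64, .negSucc 77)]),
  (24, [(64, .negSucc 69)]),
  (25, [(64, .ofNat 30)])]

noncomputable def row16 : List (ℕ × List (ℕ × ℤ)) := [(0, [(26, .ofNat 7), (27, .ofNat 14), (28, .negSucc 6), (29, .ofNat 7), (31, .ofNat 21)]),
  (2, [(43, .ofNat 7), (44, .negSucc 90), (45, .ofNat 7), (46, .negSucc 6)]),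
  (5, [(56, .negSucc 41), (57, .ofNat 21)]),
  (6, [(56, .negSucc 41), (57, .ofNat 21)]),
  (11, [(62, .negSucc 69)]),
  (12, [(62, .negSucc 139)]),
  (13, [(62, .negSucc 97)]),
  (22, [(64, .negSucc 27)]),
  (23, [(64, .negSucc 69)]),
  (24, [(64, .negSucc 69)]),
  (25, [(64, .ofNat 14)])]

noncomputable def row17 : List (ℕ × List (ℕ × ℤ)) := [(0, [(29, .negSucc 0), (30, .ofNat 1), (31, .ofNat 1), (32, .ofNat 2), (33, .negSucc 1), (34, .negSucc 1), (35, .ofNat 1)]),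
  (2, [(43, .ofNat 322), (44, .ofNat 1261), (45, .negSucc 17), (46, .ofNat 26), (47, .ofNat 11), (48, .negSucc 4)]),
  (5, [(56, .negSucc 106), (57, .ofNat 39), (58, .negSucc 2), (59, .negSucc 0)]),
  (6, [(56, .ofNat 240), (57, .negSucc 79), (58, .negSucc 9), (59, .ofNat 1)]),
  (11, [(62, .ofNat 256), (63, .negSucc 9)]),
  (12, [(62, .ofNat 270), (63, .negSucc 9)]),
  (13, [(62, .ofNat 324), (63, .negSucc 4)]),
  (22, [(64, .negSucc 143)]),
  (23, [(64, .negSucc 277)]),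
  (24, [(64, .negSucc 185)]),
  (25, [(64, .ofNat 14)])]

noncomputable def row18 : List (ℕ × List (ℕ × ℤ)) := [(0, [(26, .ofNat 3), (27, .negSucc 5), (28, .ofNat 10), (29, .negSucc 4), (31, .negSucc 11)]),
  (2, [(43, .ofNat 26), (44, .ofNat 72), (45, .negSucc 4), (46, .ofNat 12)]),
  (5, [(56, .ofNat 214), (57, .negSucc 80)]),
  (6, [(56, .ofNat 34), (57, .negSucc 16)]),
  (11, [(62, .ofNat 26)]),
  (12, [(62, .ofNat 56)]),
  (13, [(62, .negSucc 1)]),
  (22, [(64, .ofNat 48)]),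
  (23, [(64, .ofNat 114)]),
  (24, [(64, .ofNat 62)]),
  (25, [(64, .negSucc 17)])]

noncomputable def row19 : List (ℕ × List (ℕ × ℤ)) := [(0, [(26, .ofNat 7), (27, .ofNat 2), (28, .ofNat 12), (29, .negSucc 0), (31, .negSucc 5)]),
  (2, [(43, .ofNat 36), (44, .ofNat 112), (45, .negSucc 0), (46, .ofNat 14)]),
  (5, [(56, .ofNat 286), (57, .negSucc 104)]),
  (6, [(56, .ofNat 34), (57, .negSucc 16)]),
  (11, [(62, .ofNat 72)]),
  (12, [(62, .ofNat 86)]),
  (13, [(62, .ofNat 28)]),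
  (22, [(64, .ofNat 56)]),
  (23, [(64, .ofNat 122)]),
  (24, [(64, .ofNat 46)]),
  (25, [(64, .negSucc 9)])]

noncomputable def row20 : List (ℕ × List (ℕ × ℤ)) := [(0, [(26, .ofNat 1), (27, .negSucc 0), (28, .ofNat 1), (29, .negSucc 0), (30, .ofNat 1), (33, .negSucc 2), (34, .negSucc 1), (35, .negSucc 0)]),
  (2, [(43, .ofNat 121), (44, .ofNat 557), (45, .negSucc 20), (46, .negSucc 2), (47, .ofNat 8), (48, .negSucc 1), (49, .negSucc 1)]),
  (5, [(56, .negSucc 126), (57, .ofNat 27), (58, .negSucc 6), (59, .ofNat 1)]),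
  (6, [(56, .negSucc 137), (57, .ofNat 78), (58, .ofNat 4), (59, .negSucc 0)]),
  (11, [(62, .ofNat 200), (63, .negSucc 2)]),
  (12, [(62, .ofNat 146), (63, .negSucc 2)]),
  (13, [(62, .ofNat 204), (63, .negSucc 1)]),
  (22, [(64, .negSucc 83)]),
  (23, [(64, .negSucc 177)]),
  (24, [(64, .negSucc 121)]),
  (25, [(64, .ofNat 10)])]

noncomputable def row21 : List (ℕ × List (ℕ × ℤ)) := [(0, [(26, .negSucc 4), (27, .ofNat 4), (28, .ofNat 7), (29, .negSucc 13), (30, .ofNat 7), (31, .negSucc 2)]),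
  (2, [(43, .ofNat 34), (44, .negSucc 8), (45, .ofNat 6), (46, .ofNat 15), (47, .ofNat 1)]),
  (5, [(56, .ofNat 237), (57, .negSucc 85), (58, .ofNat 1)]),
  (6, [(56, .ofNat 99), (57, .negSucc 39), (58, .negSucc 0)]),
  (11, [(62, .ofNat 19)]),
  (12, [(62, .ofNat 9)]),
  (13, [(62, .negSucc 16)]),
  (22, [(64, .ofNat 28)]),
  (23, [(64, .ofNat 98)]),
  (24, [(64, .ofNat 6)]),
  (25, [(64, .negSucc 13)])]

noncomputable def row22 : List (ℕ × List (ℕ × ℤ)) := [(0, [(37, .ofNat 1)]),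
  (1, [(43, .negSucc 456), (44, .negSucc 1864), (45, .ofNat 41), (46, .negSucc 43), (47, .negSucc 17), (48, .negSucc 3), (49, .negSucc 3)]),
  (2, [(50, .negSucc 127), (51, .negSucc 116), (52, .negSucc 41), (53, .negSucc 44), (54, .negSucc 5), (55, .ofNat 43)]),
  (3, [(56, .ofNat 854), (57, .negSucc 5), (58, .ofNat 30), (59, .negSucc 1)]),
  (4, [(56, .ofNat 275), (57, .negSucc 15), (58, .ofNat 4)]),
  (5, [(60, .negSucc 128), (61, .ofNat 268)]),
  (6, [(60, .negSucc 110), (61, .ofNat 74)]),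
  (7, [(62, .negSucc 1259), (63, .ofNat 14)]),
  (8, [(62, .negSucc 207), (63, .negSucc 1)]),
  (9, [(62, .negSucc 49)]),
  (10, [(62, .negSucc 85), (63, .negSucc 5)]),
  (14, [(64, .ofNat 252)]),
  (15, [(64, .ofNat 208)]),
  (16, [(64, .negSucc 27)]),
  (17, [(64, .ofNat 1176)]),
  (18, [(64, .ofNat 132)]),
  (19, [(64, .ofNat 30)]),
  (20, [(64, .ofNat 50)]),
  (21, [(64, .ofNat 59)])]

noncomputable def row23 : List (ℕ × List (ℕ × ℤ)) := [(0, [(42, .ofNat 1)]),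
  (1, [(43, .negSucc 438), (44, .negSucc 1840), (45, .ofNat 30), (46, .negSucc 36), (47, .negSucc 10), (48, .negSucc 3), (49, .negSucc 5)]),
  (2, [(50, .negSucc 73), (51, .negSucc 116), (53, .ofNat 21), (54, .negSucc 6), (55, .negSucc 64)]),
  (3, [(56, .ofNat 630), (57, .ofNat 41), (58, .ofNat 28), (59, .negSucc 0)]),
  (4, [(56, .ofNat 191), (58, .ofNat 6)]),
  (5, [(60, .negSucc 178), (61, .ofNat 603)]),
  (6, [(60, .negSucc 136), (61, .ofNat 181)]),
  (7, [(62, .negSucc 1029), (63, .ofNat 17)]),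
  (8, [(62, .negSucc 293), (63, .negSucc 0)]),
  (9, [(62, .negSucc 19)]),
  (10, [(62, .negSucc 107), (63, .negSucc 4)]),
  (14, [(64, .ofNat 362)]),
  (15, [(64, .ofNat 278)]),
  (16, [(64, .ofNat 42)]),
  (17, [(64, .ofNat 1342)]),
  (18, [(64, .ofNat 50)]),
  (19, [(64, .negSucc 59)]),
  (20, [(64, .ofNat 208)]),
  (21, [(64, .negSucc 2)])]

noncomputable def row24 : List (ℕ × List (ℕ × ℤ)) := [(0, [(39, .ofNat 1)]),
  (1, [(43, .negSucc 462), (44, .negSucc 1894), (45, .ofNat 26), (46, .negSucc 40), (47, .negSucc 14), (48, .negSucc 3), (49, .negSucc 3)]),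
  (2, [(50, .negSucc 73), (51, .negSucc 87), (52, .negSucc 19), (53, .ofNat 1), (54, .negSucc 6), (55, .negSucc 14)]),
  (3, [(56, .ofNat 686), (57, .negSucc 8), (58, .ofNat 18), (59, .ofNat 1)]),
  (4, [(56, .ofNat 251), (57, .negSucc 15), (58, .ofNat 4)]),
  (5, [(60, .negSucc 128), (61, .ofNat 268)]),
  (6, [(60, .negSucc 110), (61, .ofNat 74)]),
  (7, [(62, .negSucc 1197), (63, .ofNat 17)]),
  (8, [(62, .negSucc 209), (63, .ofNat 1)]),
  (9, [(62, .negSucc 3)]),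
  (10, [(62, .negSucc 103), (63, .negSucc 2)]),
  (14, [(64, .ofNat 312)]),
  (15, [(64, .ofNat 228)]),
  (17, [(64, .ofNat 1184)]),
  (18, [(64, .ofNat 108)]),
  (19, [(64, .negSucc 1)]),
  (20, [(64, .ofNat 110)]),
  (21, [(64, .ofNat 47)])]

noncomputable def row25 : List (ℕ × List (ℕ × ℤ)) := [(0, [(41, .ofNat 1)]),
  (1, [(43, .negSucc 472), (44, .negSucc 1887), (45, .ofNat 44), (46, .negSucc 32), (47, .negSucc 24), (48, .negSucc 3), (49, .ofNat 1)]),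
  (2, [(50, .negSucc 157), (51, .negSucc 233), (52, .negSucc 45), (53, .negSucc 40), (54, .negSucc 6), (55, .negSucc 18)]),
  (3, [(56, .ofNat 1091), (57, .negSucc 110), (58, .ofNat 17)]),
  (4, [(56, .ofNat 648), (57, .negSucc 146), (58, .negSucc 0)]),
  (5, [(60, .negSucc 136), (61, .ofNat 364)]),
  (6, [(60, .negSucc 110), (61, .ofNat 166)]),
  (7, [(62, .negSucc 1413), (63, .ofNat 17)]),
  (8, [(62, .negSucc 209)]),
  (9, [(62, .ofNat 4)]),
  (10, [(62, .negSucc 143), (63, .negSucc 3)]),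
  (14, [(64, .ofNat 256)]),
  (15, [(64, .ofNat 204)]),
  (17, [(64, .ofNat 988)]),
  (18, [(64, .ofNat 128)]),
  (19, [(64, .ofNat 42)]),
  (20, [(64, .ofNat 2)]),
  (21, [(64, .ofNat 83)])]

noncomputable def row26 : List (ℕ × List (ℕ × ℤ)) := [(0, [(44, .ofNat 2)]),
  (2, [(56, .ofNat 6), (57, .negSucc 1)]),
  (5, [(62, .ofNat 2)]),
  (6, [(62, .ofNat 2)]),
  (11, [(64, .ofNat 2)]),
  (12, [(64, .ofNat 2)]),
  (13, [(64, .ofNat 2)])]

noncomputable def row27 : List (ℕ × List (ℕ × ℤ)) := [(0, [(44, .negSucc 1)]),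
  (2, [(56, .negSucc 5), (57, .ofNat 2)]),
  (5, [(62, .negSucc 1)]),
  (6, [(62, .negSucc 1)]),
  (11, [(64, .negSucc 1)]),
  (12, [(64, .negSucc 1)]),
  (13, [(64, .negSucc 1)])]

noncomputable def row28 : List (ℕ × List (ℕ × ℤ)) := [(0, [(43, .ofNat 2), (44, .ofNat 11), (45, .ofNat 1)]),
  (2, [(56, .ofNat 23), (57, .negSucc 7)]),
  (5, [(62, .ofNat 5)]),
  (6, [(62, .ofNat 7)]),
  (11, [(64, .ofNat 7)]),
  (12, [(64, .ofNat 7)]),
  (13, [(64, .ofNat 9)])]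

noncomputable def row29 : List (ℕ × List (ℕ × ℤ)) := [(0, [(43, .negSucc 3), (44, .negSucc 15), (45, .ofNat 1)]),
  (2, [(56, .negSucc 3), (57, .ofNat 1)]),
  (5, [(62, .ofNat 8)]),
  (6, [(62, .negSucc 1)]),
  (11, [(64, .negSucc 1)]),
  (12, [(64, .negSucc 1)])]

noncomputable def row30 : List (ℕ × List (ℕ × ℤ)) := [(0, [(43, .negSucc 4), (44, .negSucc 22), (45, .ofNat 3), (46, .ofNat 1)]),
  (2, [(56, .ofNat 18), (57, .negSucc 6)]),
  (5, [(62, .ofNat 22)]),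
  (6, [(62, .ofNat 4)]),
  (12, [(64, .ofNat 4)]),
  (13, [(64, .ofNat 6)])]

noncomputable def row31 : List (ℕ × List (ℕ × ℤ)) := [(0, [(43, .ofNat 2), (44, .ofNat 3), (45, .ofNat 1)]),
  (2, [(56, .ofNat 7), (57, .negSucc 1)]),
  (5, [(62, .negSucc 6)]),
  (6, [(62, .ofNat 3)]),
  (11, [(64, .negSucc 0)]),
  (12, [(64, .negSucc 0)]),
  (13, [(64, .ofNat 1)])]

noncomputable def row32 : List (ℕ × List (ℕ × ℤ)) := [(0, [(43, .negSucc 19), (44, .negSucc 112), (45, .ofNat 9), (46, .negSucc 0), (47, .negSucc 0)]),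
  (2, [(56, .ofNat 17), (57, .negSucc 4), (58, .negSucc 1)]),
  (5, [(62, .negSucc 18), (63, .ofNat 1)]),
  (6, [(62, .negSucc 38), (63, .negSucc 0)]),
  (11, [(64, .negSucc 58)]),
  (12, [(64, .negSucc 58)]),
  (13, [(64, .negSucc 50)])]

noncomputable def row33 : List (ℕ × List (ℕ × ℤ)) := [(0, [(43, .negSucc 25), (44, .negSucc 113), (45, .ofNat 2)]),
  (2, [(56, .ofNat 29), (57, .negSucc 10), (58, .negSucc 0)]),
  (5, [(62, .ofNat 28)]),
  (6, [(62, .negSucc 11)]),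
  (11, [(64, .negSucc 15)]),
  (12, [(64, .negSucc 15)]),
  (13, [(64, .negSucc 11)])]

noncomputable def row34 : List (ℕ × List (ℕ × ℤ)) := [(0, [(43, .ofNat 33), (44, .ofNat 181), (45, .negSucc 7), (47, .ofNat 1)]),
  (2, [(56, .ofNat 19), (57, .negSucc 5), (58, .ofNat 3)]),
  (5, [(62, .ofNat 10), (63, .negSucc 0)]),
  (6, [(62, .ofNat 72), (63, .ofNat 1)]),
  (11, [(64, .ofNat 96)]),
  (12, [(64, .ofNat 92)]),
  (13, [(64, .ofNat 90)])]

noncomputable def row35 : List (ℕ × List (ℕ × ℤ)) := [(0, [(43, .ofNat 21), (44, .ofNat 134), (45, .negSucc 12), (46, .ofNat 4), (47, .ofNat 1)]),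
  (2, [(56, .ofNat 45), (57, .negSucc 20)]),
  (5, [(62, .ofNat 83)]),
  (6, [(62, .ofNat 11)]),
  (11, [(64, .ofNat 51)]),
  (12, [(64, .ofNat 63)]),
  (13, [(64, .ofNat 27)])]

noncomputable def row36 : List (ℕ × List (ℕ × ℤ)) := [(0, [(43, .ofNat 213), (44, .ofNat 801), (45, .ofNat 6), (46, .ofNat 15), (47, .negSucc 0), (48, .negSucc 0), (49, .negSucc 0)]),
  (2, [(56, .ofNat 13), (57, .ofNat 15), (58, .ofNat 9), (59, .negSucc 0)]),
  (5, [(62, .negSucc 81), (63, .ofNat 1)]),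
  (6, [(62, .ofNat 80), (63, .negSucc 2)]),
  (11, [(64, .ofNat 72)]),
  (12, [(64, .ofNat 124)]),
  (13, [(64, .ofNat 70)])]

noncomputable def row37 : List (ℕ × List (ℕ × ℤ)) := [(0, [(50, .negSucc 113), (51, .negSucc 150), (52, .negSucc 46), (53, .negSucc 31), (54, .negSucc 5), (55, .negSucc 11)]),
  (1, [(56, .ofNat 709), (57, .ofNat 37), (58, .ofNat 34), (59, .negSucc 1)]),
  (2, [(60, .negSucc 100), (61, .ofNat 81)]),
  (3, [(62, .negSucc 1433), (63, .ofNat 18)]),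
  (4, [(62, .negSucc 292), (63, .negSucc 1)]),
  (7, [(64, .ofNat 1316)]),
  (8, [(64, .ofNat 283)]),
  (9, [(64, .ofNat 2)]),
  (10, [(64, .ofNat 230)])]

noncomputable def row38 : List (ℕ × List (ℕ × ℤ)) := [(0, [(50, .ofNat 22), (51, .ofNat 2), (52, .negSucc 2), (53, .negSucc 7), (54, .negSucc 8), (55, .negSucc 4)]),
  (1, [(56, .ofNat 862), (57, .negSucc 123), (58, .ofNat 7), (59, .ofNat 4)]),
  (2, [(60, .negSucc 138), (61, .ofNat 361)]),
  (3, [(62, .negSucc 1375), (63, .ofNat 27)]),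
  (4, [(62, .negSucc 354), (63, .ofNat 4)]),
  (7, [(64, .ofNat 1374)]),
  (8, [(64, .ofNat 249)]),
  (9, [(64, .ofNat 4)]),
  (10, [(64, .ofNat 236)])]

noncomputable def row39 : List (ℕ × List (ℕ × ℤ)) := [(0, [(50, .negSucc 46), (51, .negSucc 80), (52, .negSucc 19), (53, .negSucc 17), (54, .negSucc 6), (55, .negSucc 23)]),
  (1, [(56, .ofNat 613), (57, .ofNat 10), (58, .ofNat 22), (59, .ofNat 1)]),
  (2, [(60, .negSucc 100), (61, .ofNat 73)]),
  (3, [(62, .negSucc 1401), (63, .ofNat 21)]),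
  (4, [(62, .negSucc 316), (63, .ofNat 1)]),
  (7, [(64, .ofNat 1360)]),
  (8, [(64, .ofNat 267)]),
  (9, [(64, .negSucc 1)]),
  (10, [(64, .ofNat 242)])]

noncomputable def row40 : List (ℕ × List (ℕ × ℤ)) := [(0, [(50, .negSucc 13), (51, .negSucc 3), (52, .negSucc 14), (53, .negSucc 5), (54, .negSucc 6), (55, .negSucc 5)]),
  (1, [(56, .ofNat 769), (58, .ofNat 32), (59, .negSucc 0)]),
  (2, [(60, .negSucc 106), (61, .ofNat 61)]),
  (3, [(62, .negSucc 1319), (63, .ofNat 21)]),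
  (4, [(62, .negSucc 322), (63, .negSucc 0)]),
  (7, [(64, .ofNat 1534)]),
  (8, [(64, .ofNat 293)]),
  (9, [(64, .negSucc 3)]),
  (10, [(64, .ofNat 304)])]

noncomputable def row41 : List (ℕ × List (ℕ × ℤ)) := [(0, [(50, .negSucc 160), (51, .negSucc 241), (52, .negSucc 70), (53, .negSucc 42), (54, .negSucc 6), (55, .negSucc 10)]),
  (1, [(56, .ofNat 1066), (57, .negSucc 103), (58, .ofNat 21)]),
  (2, [(60, .negSucc 124), (61, .ofNat 321)]),
  (3, [(62, .negSucc 1593), (63, .ofNat 21)]),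
  (4, [(62, .negSucc 292)]),
  (7, [(64, .ofNat 1108)]),
  (8, [(64, .ofNat 287)]),
  (9, [(64, .ofNat 42)]),
  (10, [(64, .ofNat 162)])]

noncomputable def row42 : List (ℕ × List (ℕ × ℤ)) := [(0, [(50, .negSucc 2), (51, .ofNat 21), (52, .negSucc 5), (53, .negSucc 3), (54, .negSucc 6), (55, .ofNat 4)]),
  (1, [(56, .ofNat 563), (57, .ofNat 54), (58, .ofNat 32), (59, .negSucc 0)]),
  (2, [(60, .negSucc 134), (61, .ofNat 256)]),
  (3, [(62, .negSucc 1183), (63, .ofNat 21)]),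
  (4, [(62, .negSucc 350), (63, .negSucc 0)]),
  (7, [(64, .ofNat 1568)]),
  (8, [(64, .ofNat 283)]),
  (9, [(64, .negSucc 17)]),
  (10, [(64, .ofNat 298)])]

noncomputable def row43 : List (ℕ × List (ℕ × ℤ)) := [(2, [(62, .negSucc 4)])]

noncomputable def row44 : List (ℕ × List (ℕ × ℤ)) := [(2, [(62, .ofNat 1)])]

noncomputable def row45 : List (ℕ × List (ℕ × ℤ)) := [(0, [(56, .ofNat 4), (57, .negSucc 0)]),
  (2, [(62, .ofNat 2)]),
  (5, [(64, .ofNat 2)]),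
  (6, [(64, .negSucc 1)])]

noncomputable def row46 : List (ℕ × List (ℕ × ℤ)) := [(0, [(56, .ofNat 4), (57, .negSucc 1)]),
  (2, [(62, .ofNat 8)]),
  (5, [(64, .ofNat 4)])]

noncomputable def row47 : List (ℕ × List (ℕ × ℤ)) := [(0, [(56, .negSucc 15), (57, .ofNat 5)]),
  (2, [(62, .ofNat 20)]),
  (5, [(64, .negSucc 1)]),
  (6, [(64, .negSucc 1)])]

noncomputable def row48 : List (ℕ × List (ℕ × ℤ)) := [(0, [(56, .negSucc 52), (57, .ofNat 11), (58, .ofNat 1)]),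
  (2, [(62, .negSucc 58), (63, .ofNat 1)]),
  (5, [(64, .ofNat 40)]),
  (6, [(64, .ofNat 4)])]

noncomputable def row49 : List (ℕ × List (ℕ × ℤ)) := [(0, [(56, .ofNat 17), (57, .negSucc 6), (58, .negSucc 0)]),
  (2, [(62, .ofNat 7)]),
  (5, [(64, .negSucc 23)]),
  (6, [(64, .ofNat 8)])]

noncomputable def row50 : List (ℕ × List (ℕ × ℤ)) := [(0, [(60, .ofNat 3), (61, .negSucc 13)]),
  (1, [(62, .ofNat 6)]),
  (3, [(64, .negSucc 13)]),
  (4, [(64, .negSucc 2)])]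

noncomputable def row51 : List (ℕ × List (ℕ × ℤ)) := [(0, [(60, .negSucc 1), (61, .ofNat 9)]),
  (1, [(62, .negSucc 7)]),
  (3, [(64, .ofNat 10)]),
  (4, [(64, .ofNat 2)])]

noncomputable def row52 : List (ℕ × List (ℕ × ℤ)) := [(0, [(60, .negSucc 0), (61, .ofNat 5)]),
  (1, [(62, .ofNat 12)]),
  (3, [(64, .ofNat 4)]),
  (4, [(64, .ofNat 1)])]

noncomputable def row53 : List (ℕ × List (ℕ × ℤ)) := [(0, [(60, .ofNat 1), (61, .negSucc 3)]),
  (1, [(62, .ofNat 12)]),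
  (3, [(64, .negSucc 5)]),
  (4, [(64, .negSucc 0)])]

noncomputable def row54 : List (ℕ × List (ℕ × ℤ)) := [(0, [(60, .ofNat 12), (61, .ofNat 3)]),
  (1, [(62, .ofNat 158), (63, .negSucc 2)]),
  (3, [(64, .negSucc 173)]),
  (4, [(64, .negSucc 35)])]

noncomputable def row55 : List (ℕ × List (ℕ × ℤ)) := [(0, [(60, .ofNat 2), (61, .negSucc 9)]),
  (1, [(62, .ofNat 12)]),
  (3, [(64, .negSucc 7)]),
  (4, [(64, .negSucc 1)])]

noncomputable def row56 : List (ℕ × List (ℕ × ℤ)) := [(0, [(62, .negSucc 0)]),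
  (2, [(64, .negSucc 0)])]

noncomputable def row57 : List (ℕ × List (ℕ × ℤ)) := [(0, [(62, .negSucc 3)]),
  (2, [(64, .negSucc 3)])]

noncomputable def row58 : List (ℕ × List (ℕ × ℤ)) := [(0, [(62, .ofNat 19)]),
  (2, [(64, .ofNat 27)])]

noncomputable def row59 : List (ℕ × List (ℕ × ℤ)) := [(0, [(63, .ofNat 1)]),
  (2, [(64, .ofNat 48)])]

noncomputable def row60 : List (ℕ × List (ℕ × ℤ)) := [(1, [(64, .negSucc 14)])]

noncomputable def row61 : List (ℕ × List (ℕ × ℤ)) := [(1, [(64, .negSucc 1)])]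

noncomputable def row62 : List (ℕ × List (ℕ × ℤ)) := []

noncomputable def row63 : List (ℕ × List (ℕ × ℤ)) := [(0, [(64, .ofNat 8)])]

noncomputable def row64 : List (ℕ × List (ℕ × ℤ)) := []

end Pool.Agent.W429.TCI.WData
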